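import Pool.Agent.Work.MP_223b32_tc.Interface

/-!
# Block SQF
-/

namespace Pool.Agent.Work.TC

open Finset Polynomial

namespace SQF

theorem deg_prod {L : Type} [Field L] (q : ℕ) (hq : 2 ≤ q) (S : Finset ℕ)
    (hS : ∀ k ∈ S, 1 ≤ k) :
    (∏ k ∈ S, (X ^ q ^ k - X : L[X])).natDegree = ∑ k ∈ S, q ^ k ∧
      ∏ k ∈ S, (X ^ q ^ k - X : L[X]) ≠ 0 := by
  have h1 : ∀ k ∈ S, 1 < q ^ k := fun k hk => Nat.one_lt_pow (by have := hS k hk; omega) (by omega)
  have h0 : ∀ k ∈ S, (X ^ q ^ k - X : L[X]) ≠ 0 := fun k hk =>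
    FiniteField.X_pow_card_sub_X_ne_zero L (h1 k hk)
  refine ⟨?_, prod_ne_zero_iff.2 h0⟩
  rw [natDegree_prod _ _ h0]
  exact sum_congr rfl fun k hk => FiniteField.X_pow_card_sub_X_natDegree_eq L (h1 k hk)

end SQF

theorem stmt_SQF : Stmt_SQF := by
  classical
  intro F K _ _ _ _ _ S hS h1 ⟨c, R, hR⟩
  set q := Fintype.card F with hqdef
  have hq : 2 ≤ q := Fintype.one_lt_card
  have hcast : (q : K) = 0 := by
    have h := congrArg (algebraMap F K) (FiniteField.cast_card_eq_zero F)
    rwa [map_natCast, map_zero] at h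
  set L := AlgebraicClosure K
  have hcL : (q : L) = 0 := by
    have h := congrArg (algebraMap K L) hcast
    rwa [map_natCast, map_zero] at h
  set k0 := S.max' hS with hk0
  have hk0S : k0 ∈ S := S.max'_mem hS
  have hk1 : 1 ≤ k0 := h1 k0 hk0S
  have hlt : ∀ k ∈ S.erase k0, k < k0 := by
    intro k hk
    rw [mem_erase] at hk
    exact lt_of_le_of_ne (S.le_max' k hk.2) hk.1
  have hpow0 : ((q ^ k0 : ℕ) : L) = 0 := by
    rw [Nat.cast_pow, hcL, zero_pow (by omega)]
  -- the polynomials
  set f : L[X] := X ^ q ^ k0 - X with hf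
  set g : L[X] := ∏ k ∈ S.erase k0, (X ^ q ^ k - X : L[X]) with hg
  have hQ : 1 < q ^ k0 := Nat.one_lt_pow (by omega) (by omega)
  have hfd : f.natDegree = q ^ k0 := FiniteField.X_pow_card_sub_X_natDegree_eq L hQ
  have hf0 : f ≠ 0 := FiniteField.X_pow_card_sub_X_ne_zero L hQ
  obtain ⟨hgd, hg0⟩ := SQF.deg_prod (L := L) q hq (S.erase k0)
    (fun k hk => h1 k (mem_of_mem_erase hk))
  have hglt : g.natDegree < q ^ k0 := by
    rw [hgd]
    exact Nat.geomSum_lt hq hlt
  have hder : derivative f = -1 := by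
    rw [hf, derivative_sub, derivative_X_pow, derivative_X, hpow0]
    simp
  have hsep : f.Separable := by
    refine ⟨0, -1, ?_⟩
    rw [hder]
    ring
  have hcard : f.roots.card = q ^ k0 := by
    rw [← hfd]
    exact (splits_iff_card_roots.1 (IsAlgClosed.splits f))
  have hex : ∃ b ∈ f.roots, g.eval b ≠ 0 := by
    by_contra hcon
    push Not at hcon
    have hsub : f.roots.toFinset ⊆ g.roots.toFinset := by
      intro b hb
      rw [Multiset.mem_toFinset] at hb ⊢
      exact (mem_roots hg0).2 (hcon b hb)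
    have h2 := card_le_card hsub
    rw [Multiset.toFinset_card_of_nodup (nodup_roots hsep), hcard] at h2
    have h3 := (Multiset.toFinset_card_le g.roots).trans (card_roots' g)
    omega
  obtain ⟨b, hb, hgb⟩ := hex
  have hfb : f.eval b = 0 := ((mem_roots hf0).1 hb)
  -- the equation over L
  have hEq : f * g = C (algebraMap K L c) * (R.map (algebraMap K L)) ^ 2 := by
    have h := congrArg (Polynomial.map (algebraMap K L)) hR
    rw [Polynomial.map_prod, Polynomial.map_mul, Polynomial.map_pow, Polynomial.map_C] at h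
    rw [← h, ← mul_prod_erase S _ hk0S, hf, hg]
    simp [Polynomial.map_sub, Polynomial.map_pow]
  have hd := congrArg (fun p => (derivative p).eval b) hEq
  have he := congrArg (fun p => p.eval b) hEq
  simp only [eval_mul, hfb, zero_mul, eval_C, eval_pow] at he
  simp only [derivative_mul, hder, eval_add, eval_mul, hfb, zero_mul, add_zero, derivative_C,
    eval_C, zero_add, derivative_pow, eval_pow, eval_neg, eval_one] at hd
  have hz : algebraMap K L c * eval b (Polynomial.map (algebraMap K L) R) = 0 := by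
    rcases mul_eq_zero.1 he.symm with h | h
    · rw [h, zero_mul]
    · rw [pow_eq_zero_iff (by norm_num)] at h
      rw [h, mul_zero]
  apply hgb
  have h5 : -1 * eval b g = 0 := by
    rw [hd]
    simp only [Nat.cast_ofNat, Nat.add_one_sub_one, pow_one]
    linear_combination (2 * eval b (derivative (Polynomial.map (algebraMap K L) R))) * hz
  linear_combination (-1 : L) * h5

end Pool.Agent.Work.TC
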