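import Pool.Agent.Work.MP_223b32_tc.Interface

/-!
# Block STAR
-/

namespace Pool.Agent.Work.TC

open Finset Polynomial

namespace STAR

variable {G : Type} [Field G] [CharP G 2]

theorem cast_sq (m : ℕ) : (m : G) ^ 2 = m := by
  have h2 : (2 : G) = 0 := CharTwo.two_eq_zero
  rcases Nat.even_or_odd' m with ⟨c, rfl | rfl⟩
  · push_cast
    rw [h2]
    ring
  · push_cast
    rw [h2]
    ring

theorem cast_of_mod {a b : ℕ} (h : a ≡ b [MOD 2]) : (a : G) = (b : G) :=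
  (CharP.natCast_eq_natCast G 2).2 h

theorem ZZ_eq (g e : ℕ) (r : ℕ → ℕ)
    (hr : ∀ k, 1 ≤ k → k ≤ g → r (2 * g + 1 - k) ≡ r k + e [MOD 2]) (ζ : G) :
    ZZ (2 * g + 1) r ζ = (r (2 * g + 1) : G) +
      ∑ k ∈ Icc 1 g, ((r k : G) * (ζ ^ k + ζ ^ (2 * g + 1 - k)) + (e : G) * ζ ^ k) := by
  unfold ZZ
  have h1 : Icc 1 (2 * g + 1) = insert (2 * g + 1) (Icc 1 g ∪ Icc (g + 1) (2 * g)) := by
    ext x
    simp only [mem_Icc, mem_insert, mem_union]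
    omega
  have h2 : (2 * g + 1) ∉ Icc 1 g ∪ Icc (g + 1) (2 * g) := by
    simp only [mem_Icc, mem_union]
    omega
  have h3 : Disjoint (Icc 1 g) (Icc (g + 1) (2 * g)) := by
    rw [Finset.disjoint_left]
    intro x hx hx'
    simp only [mem_Icc] at hx hx'
    omega
  rw [h1, sum_insert h2, sum_union h3]
  have h4 : ∑ k ∈ Icc (g + 1) (2 * g), (r k : G) * ζ ^ (2 * g + 1 - k) =
      ∑ k ∈ Icc 1 g, (r (2 * g + 1 - k) : G) * ζ ^ k := by
    refine Finset.sum_bij' (fun k _ => 2 * g + 1 - k) (fun k _ => 2 * g + 1 - k) ?_ ?_ ?_ ?_ ?_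
    · intro k hk
      simp only [mem_Icc] at hk ⊢
      omega
    · intro k hk
      simp only [mem_Icc] at hk ⊢
      omega
    · intro k hk
      simp only [mem_Icc] at hk
      omega
    · intro k hk
      simp only [mem_Icc] at hk
      omega
    · intro k hk
      simp only [mem_Icc] at hk
      have : 2 * g + 1 - (2 * g + 1 - k) = k := by omega
      rw [this]
  rw [h4, Nat.sub_self, pow_zero, mul_one, ← sum_add_distrib]
  congr 1
  refine sum_congr rfl fun k hk => ?_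
  simp only [mem_Icc] at hk
  rw [cast_of_mod (G := G) (hr k hk.1 hk.2)]
  push_cast
  ring

theorem ZZ_add (g e : ℕ) (r : ℕ → ℕ)
    (hr : ∀ k, 1 ≤ k → k ≤ g → r (2 * g + 1 - k) ≡ r k + e [MOD 2]) (ζ : G) :
    ZZ (2 * g + 1) r ζ + ZZ (2 * g + 1) r ζ ^ 2 =
      ∑ k ∈ Icc 1 g, (r k : G) * (ζ ^ k + ζ ^ (2 * g + 1 - k) + ζ ^ (2 * k) +
        ζ ^ (2 * (2 * g + 1 - k))) + (e : G) * ∑ k ∈ Icc 1 g, (ζ ^ k + ζ ^ (2 * k)) := by
  rw [ZZ_eq g e r hr ζ]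
  have h2 : (2 : G) = 0 := CharTwo.two_eq_zero
  rw [CharTwo.add_sq, CharTwo.sum_sq, cast_sq]
  have h : ∀ k ∈ Icc 1 g, ((r k : G) * (ζ ^ k + ζ ^ (2 * g + 1 - k)) + (e : G) * ζ ^ k) ^ 2 =
      (r k : G) * (ζ ^ (2 * k) + ζ ^ (2 * (2 * g + 1 - k))) + (e : G) * ζ ^ (2 * k) := by
    intro k _
    rw [CharTwo.add_sq, mul_pow, mul_pow, CharTwo.add_sq, cast_sq, cast_sq, ← pow_mul, ← pow_mul,
      mul_comm k 2, mul_comm (2 * g + 1 - k) 2]
  rw [sum_congr rfl h]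
  have h5 : (r (2 * g + 1) : G) + (r (2 * g + 1) : G) = 0 := by
    rw [← two_mul, h2, zero_mul]
  calc _ = ((r (2 * g + 1) : G) + (r (2 * g + 1) : G)) +
        (∑ k ∈ Icc 1 g, ((r k : G) * (ζ ^ k + ζ ^ (2 * g + 1 - k)) + (e : G) * ζ ^ k) +
        ∑ k ∈ Icc 1 g, ((r k : G) * (ζ ^ (2 * k) + ζ ^ (2 * (2 * g + 1 - k))) +
          (e : G) * ζ ^ (2 * k))) := by ring
    _ = _ := by
        rw [h5, zero_add, ← sum_add_distrib, mul_sum, ← sum_add_distrib]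
        refine sum_congr rfl fun k _ => ?_
        ring

end STAR

theorem stmt_STAR : Stmt_STAR := by
  intro G _ _ g e r hr I _
  calc ∑ ζ ∈ I, (ZZ (2 * g + 1) r ζ + ZZ (2 * g + 1) r ζ ^ 2)
      = ∑ ζ ∈ I, (∑ k ∈ Icc 1 g, (r k : G) * (ζ ^ k + ζ ^ (2 * g + 1 - k) + ζ ^ (2 * k) +
        ζ ^ (2 * (2 * g + 1 - k))) + (e : G) * ∑ k ∈ Icc 1 g, (ζ ^ k + ζ ^ (2 * k))) :=
        sum_congr rfl fun ζ _ => STAR.ZZ_add g e r hr ζ
    _ = _ := by
        rw [sum_add_distrib, sum_comm, ← mul_sum]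
        congr 1
        refine sum_congr rfl fun k _ => ?_
        unfold cc
        rw [mul_sum]

end Pool.Agent.Work.TC
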